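import Pool.Agent.Helper22.TB.Goals

/-!
Project TB (MP_74f661_nt), packet POS (helper28).
-/

set_option autoImplicit false

namespace Pool.Agent.Helper28.TB

open Pool.Agent.Helper22.TB

/-- **POS**. -/
theorem gPOS : G_POS := by
  intro hK hL _ f r hr0 hr1 hf
  obtain ⟨ι, _, c, θ, hc, hf⟩ := hf
  have h1 : f = fun g : ℕ => ∑ i ∈ (Finset.univ : Finset ι), c i * Real.cos (θ i * g) := by
    funext g
    exact hf g
  rw [h1, hL ι Finset.univ c (fun i g => Real.cos (θ i * g)) r hr0 hr1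
    (fun i _ => ⟨1, fun g => Real.abs_cos_le_one _⟩)]
  exact Finset.sum_nonneg fun i _ => mul_nonneg (hc i) (hK (θ i) r hr0 hr1).2.2

end Pool.Agent.Helper28.TB
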